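import Pool.Agent.H51.EMD.Prob

/-!
# Sums of cell costs over product sets approximate planar Earth-Mover Distance only within `log Δ`

Every product set `X × Y` of the grid gets a random cost, an arbitrary nonnegative function of its
numbers of red and blue points, and the output `Z` is the sum of all these costs. If `Z` is at least
the Earth-Mover Distance with probability at least `p` and has expectation at most `C` times the
Earth-Mover Distance, for all inputs with at most two red and two blue points, then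
`C ≥ p log Δ / 26`.
-/

set_option autoImplicit false

namespace Pool.Agent.Results.MP_dbcd2a_lc.ProductSetSums

open Finset MeasureTheory ENNReal Pool.Agent.H51.EMD

/-- Distortion at least of the order of `log Δ` for sums of cell costs over product sets. -/
theorem result {Ω : Type*} [MeasurableSpace Ω] (μ : Measure Ω) [IsProbabilityMeasure μ]
    (Δ : ℕ) (hΔ : 2 ≤ Δ) (C p : ℝ) (hC : 0 ≤ C) (hp : 0 ≤ p)
    (g : Ω → Finset ℤ × Finset ℤ → ℕ → ℕ → ℝ≥0∞)
    (hm : ∀ Q ∈ cells Δ, ∀ r b, AEMeasurable (fun ω => g ω Q r b) μ)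
    (hlow : ∀ R B : Finset (ℤ × ℤ), R ⊆ grid Δ → B ⊆ grid Δ → R.card = B.card → R.card ≤ 2 →
      ENNReal.ofReal p ≤ μ {ω | ENNReal.ofReal (emd R B) ≤ cellSum Δ (g ω) R B})
    (hup : ∀ R B : Finset (ℤ × ℤ), R ⊆ grid Δ → B ⊆ grid Δ → R.card = B.card → R.card ≤ 2 →
      ∫⁻ ω, cellSum Δ (g ω) R B ∂μ ≤ ENNReal.ofReal (C * emd R B)) :
    p * Real.log Δ ≤ 26 * C :=
  prob μ hΔ hC hp g hm hlow hup

end Pool.Agent.Results.MP_dbcd2a_lc.ProductSetSums
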